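import Mathlib
import Pool.Agent.W526.LL.Stm

/-! LL-UNR: a vector with trivial Hecke eigenvalue gives a trivial local component. -/

namespace Pool.Agent.W599.LL.Unr

open Pool.Agent.W526.LL WithZero

section loc

variable {F : Type} [Field F] [Valued F ℤᵐ⁰]

/-- conjugation of the Iwahori subgroup by `al` lands in the maximal compact subgroup -/
theorem conj_al (D : LD F) {k : GL (Fin 2) F} (hk : k ∈ Iw F) :
    ∃ k' ∈ maxK F, k * D.al = D.al * k' := by
  have hne := D.ne
  have hlt : Valued.v (k 1 0) ≤ exp (-1 : ℤ) := by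
    have h := hk.2
    rw [← exp_zero] at h
    rcases eq_or_ne (Valued.v (k 1 0)) 0 with h0 | h0
    · rw [h0]; exact zero_le
    · rw [← exp_log h0, exp_lt_exp] at h
      rw [← exp_log h0, exp_le_exp]
      omega
  have hdet : k 0 0 * k 1 1 - (k 0 1 * D.ϖ) * (D.ϖ⁻¹ * k 1 0) = dt k := by
    unfold dt
    field_simp
  refine ⟨gl2 (k 0 0) (k 0 1 * D.ϖ) (D.ϖ⁻¹ * k 1 0) (k 1 1) (by rw [hdet]; exact dt_ne_zero k),
    ⟨?_, ?_⟩, ?_⟩
  · intro i j
    have hϖ1 : Valued.v D.ϖ ≤ 1 := by
      rw [D.hϖ, ← exp_zero, exp_le_exp]; norm_num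
    fin_cases i <;> fin_cases j
    · exact hk.1.1 0 0
    · show Valued.v (k 0 1 * D.ϖ) ≤ 1
      rw [map_mul]
      exact mul_le_one' (hk.1.1 0 1) hϖ1
    · show Valued.v (D.ϖ⁻¹ * k 1 0) ≤ 1
      rw [map_mul, map_inv₀, D.hϖ]
      calc (exp (-1 : ℤ))⁻¹ * Valued.v (k 1 0) ≤ (exp (-1 : ℤ))⁻¹ * exp (-1 : ℤ) :=
            mul_le_mul_right hlt _
        _ = 1 := inv_mul_cancel₀ exp_ne_zero
    · exact hk.1.1 1 1
  · rw [dt_gl2, hdet]
    exact hk.1.2
  · apply ext4 <;> simp [mul_ij, LD.al, dg]
    · field_simp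
    · ring

theorem al_ws_al (D : LD F) : D.al * ws * D.al = D.z * ws := by
  apply ext4 <;> simp [mul_ij, LD.al, LD.z, dg, sc, ws]

end loc

theorem main (hC : S_C) (hdec : S_dec) : S_unr := by
  intro p D V _ _ ρ hirr x hx hK hz hT
  classical
  set rp : Representation ℂ (GL (Fin 2) (Kv p)) V := MonoidHom.comp ρ (inj p) with hrp
  have rpa : ∀ g v, rp g v = ρ (inj p g) v := fun g v => rfl
  have hK' : ∀ k ∈ maxK (Kv p), rp k x = x := hK
  have hz' : rp D.z x = x := hz
  have rmul : ∀ (a b : GL (Fin 2) (Kv p)) (v : V), rp (a * b) v = rp a (rp b v) := by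
    intro a b v; rw [map_mul, Module.End.mul_apply]
  have gmul : ∀ (a b : GA) (v : V), ρ (a * b) v = ρ a (ρ b v) := by
    intro a b v; rw [map_mul, Module.End.mul_apply]
  have hT' : ∑ t ∈ D.T, rp (lo t * D.al) x + rp (ws * D.al) x = ((D.T.card : ℂ) + 1) • x := hT
  -- the Steinberg vector
  set y : V := rp D.al x - x with hy
  have hst : IsSt D rp y := by
    refine ⟨?_, ?_, ?_⟩
    · intro k hk
      obtain ⟨k', hk', he⟩ := conj_al D hk
      rw [hy, map_sub, ← rmul, he, rmul, hK' k' hk', hK' k hk.1]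
    · have h1 : rp D.w (rp D.al x) = x := by
        rw [← rmul]
        show rp (D.al * ws * D.al) x = x
        rw [al_ws_al, rmul, hK' ws ws_mem, hz']
      have h2 : rp D.w x = rp D.al x := by
        show rp (D.al * ws) x = _
        rw [rmul, hK' ws ws_mem]
      rw [hy, map_sub, h1, h2]
      abel
    · have h1 : ∀ t ∈ D.T, rp (lo t) y = rp (lo t * D.al) x - x := by
        intro t ht
        rw [hy, map_sub, ← rmul, hK' (lo t) (lo_mem (D.hT t ht))]
      have h2 : rp ws y = rp (ws * D.al) x - x := by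
        rw [hy, map_sub, ← rmul, hK' ws ws_mem]
      rw [Finset.sum_congr rfl h1, h2, Finset.sum_sub_distrib, Finset.sum_const,
        sub_add_sub_comm, hT', add_smul, one_smul, Nat.cast_smul_eq_nsmul]
      abel
  -- invariance of big spans
  let S : Set (V →ₗ[ℂ] V) := {A | ∃ c : GA, (∀ h, c * inj p h = inj p h * c) ∧ A = ρ c}
  have hS : ∀ A ∈ S, ∀ g v, A (rp g v) = rp g (A v) := by
    rintro A ⟨c, hc, rfl⟩ g v
    rw [rpa, rpa, ← gmul, ← gmul, hc]
  have htop : ∀ u : V, u ≠ 0 → bigSpan rp S u = ⊤ := by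
    intro u hu
    have hinv : ∀ g, ∀ v ∈ bigSpan rp S u, ρ g v ∈ bigSpan rp S u := by
      intro g v hv
      obtain ⟨c, -, hc, hg⟩ := exists_decomp p g
      induction hv using Submodule.span_induction with
      | mem v hv =>
        obtain ⟨A, ⟨c', hc', rfl⟩, h, rfl⟩ := hv
        apply Submodule.subset_span
        refine ⟨ρ (c * c'), ⟨c * c', fun h => by rw [mul_assoc, hc', ← mul_assoc, hc, mul_assoc],
          rfl⟩, g p * h, ?_⟩
        rw [rpa, rpa, ← gmul, ← gmul, ← gmul]
        congr 2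
        conv_lhs => rw [hg]
        rw [map_mul]
        have := hc' (g p)
        calc c * inj p (g p) * c' * inj p h = c * (inj p (g p) * c') * inj p h := by group
          _ = c * (c' * inj p (g p)) * inj p h := by rw [this]
          _ = c * c' * (inj p (g p) * inj p h) := by group
      | zero => rw [map_zero]; exact Submodule.zero_mem _
      | add a b _ _ ha hb => rw [map_add]; exact Submodule.add_mem _ ha hb
      | smul r a _ ha => rw [map_smul]; exact Submodule.smul_mem _ _ ha
    rcases hirr.2 _ hinv with h | h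
    · exfalso
      apply hu
      have : u ∈ bigSpan rp S u := by
        apply Submodule.subset_span
        refine ⟨ρ 1, ⟨1, fun h => by rw [one_mul, mul_one], rfl⟩, 1, ?_⟩
        simp
      rw [h] at this
      exact (Submodule.mem_bot ℂ).mp this
    · exact h
  have hy0 : y = 0 := by
    by_contra hne
    obtain ⟨h1, -, -, -⟩ := hC (Kv p) D V rp y hst S hS
    exact hx (h1 x (by rw [htop y hne]; exact Submodule.mem_top) hK')
  have hal : rp D.al x = x := sub_eq_zero.mp hy0
  -- everything at `p` fixes `x`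
  let St : Subgroup (GL (Fin 2) (Kv p)) :=
    { carrier := {g | rp g x = x}
      mul_mem' := by
        intro a b ha hb
        show rp (a * b) x = x
        rw [rmul, hb, ha]
      one_mem' := by show rp 1 x = x; rw [map_one]; rfl
      inv_mem' := by
        intro a ha
        show rp a⁻¹ x = x
        have ha' : rp a x = x := ha
        conv_lhs => rw [← ha']
        rw [← rmul, inv_mul_cancel, map_one]; rfl }
  have m1 : D.al ∈ St := hal
  have m2 : D.z ∈ St := hz'
  have m3 : ∀ k ∈ maxK (Kv p), k ∈ St := hK'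
  have m4 : D.w ∈ St := mul_mem m1 (m3 ws ws_mem)
  have hfix : ∀ g, rp g x = x := by
    intro g
    obtain ⟨j, k, m, i, hk, hi, hg⟩ := hdec (Kv p) D g
    have mk := m3 k hk
    have mi := m3 i hi.1
    have : g ∈ St := by
      rcases hg with hg | hg
      · rw [hg]
        exact mul_mem (mul_mem (mul_mem (zpow_mem m2 j) mk) (pow_mem m1 m)) mi
      · rw [hg]
        exact mul_mem (mul_mem (mul_mem (mul_mem (zpow_mem m2 j) mk) (pow_mem m1 m)) m4) mi
    exact this
  -- conclusion
  intro g v
  have hv : v ∈ bigSpan rp S x := by rw [htop x hx]; exact Submodule.mem_top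
  show rp g v = v
  induction hv using Submodule.span_induction with
  | mem v hv =>
    obtain ⟨A, hA, h, rfl⟩ := hv
    rw [← hS A hA, ← rmul, hfix, hfix]
  | zero => rw [map_zero]
  | add a b _ _ ha hb => rw [map_add, ha, hb]
  | smul r a _ ha => rw [map_smul, ha]

end Pool.Agent.W599.LL.Unr
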